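import Pool.Agent.Helper36.Y13.Level
import Pool.Agent.Helper36.DL.ZpLem
import Pool.Agent.Helper22.AA.Polar
import Pool.Agent.Helper20.PL.Unif
import Pool.Agent.Helper11.AB.Defs

/-! # Curves in `Y(1)³` with common poles: the assembly -/

open MvPolynomial Finset

namespace Pool.Agent.Helper36.Y13
open Pool.Agent.Helper11.ZP Pool.Agent.Helper11.ZU Pool.Agent.Helper20.ZD Pool.Agent.Helper20.ZT
  Pool.Agent.Helper20.ZT.Prim Pool.Agent.Helper36.DL Pool.Agent.Helper36.AA Pool.Agent.Helper69.DL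
  Pool.Agent.Helper11.AB Pool.Agent.Helper22.AA

variable {v : AbsoluteValue ℂ ℝ} {p : ℕ}

/-- the scalars `k` which are `p`-adic integers near `1` -/
def NearOne (v : AbsoluteValue ℂ ℝ) (p : ℕ) (k : ℂ) : Prop := Zp v p k ∧ v (k - 1) ≤ v (p : ℂ)

lemma NearOne.v_eq (hv : IsNonarchimedean v) (hvp : v (p : ℂ) < 1) {k : ℂ} (h : NearOne v p k) : v k = 1 := by
  have h1 : v (k - 1) < v 1 := by rw [map_one]; exact h.2.trans_lt hvp
  rw [show k = 1 + (k - 1) by ring, v_add_eq hv h1, map_one]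

/-- **the case of three different absolute values** -/
def Unif3 (v : AbsoluteValue ℂ ℝ) (p : ℕ) (Z : Set (Fin 3 → ℂ)) : Prop :=
  ∃ B : ℕ, ∀ k : ℂ, NearOne v p k → ∀ z ∈ Z, (∀ i, 1 ≤ v (z i)) → (∀ i j, i ≠ j → v (z i) ≠ v (z j)) →
    ∀ N : Fin 3 → Fin 3 → ℕ, (∀ i j, i ≠ j → 0 < N i j ∧
      CyclicIsog (N i j) (((p : ℂ) * k)⁻¹ * z i + 744) (((p : ℂ) * k)⁻¹ * z j + 744)) → ∃ i j, i ≠ j ∧ N i j ≤ B

/-- all what is needed for the set `Z` -/
structure Local13 (v : AbsoluteValue ℂ ℝ) (p : ℕ) (Z : Set (Fin 3 → ℂ)) : Prop where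
  nz : ∀ z ∈ Z, ∀ i j, i ≠ j → v (z i) < 1 → v (z j) = 1
  one : UnifA v p (atMostOne v Z) ∧ UnifB v p (atMostOne v Z) ∧ UnifC v p (atMostOne v Z)
  equal : UnifBP v p Z
  two : Helper20.PL.UnifP v p Z
  three : Unif3 v p Z

/-- the affine map -/
lemma affAt (hv : IsNonarchimedean v) (hp : p.Prime) (hvp : v (p : ℂ) < 1) {k : ℂ} (hk : NearOne v p k) :
    AffAt v p 1 (fun _ : Fin 3 => ((p : ℂ) * k)⁻¹) (fun _ => 744) := by
  have hp0 : (p : ℂ) ≠ 0 := by exact_mod_cast hp.ne_zero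
  have hk1 := hk.v_eq hv hvp
  have h1 : (p : ℂ) ^ 1 * ((p : ℂ) * k)⁻¹ = k⁻¹ := by
    rw [pow_one, mul_inv, ← mul_assoc, mul_inv_cancel₀ hp0, one_mul]
  refine ⟨le_rfl, fun _ => ?_, fun _ => ?_, fun _ => ?_, fun _ => ?_⟩
  · rw [h1]
    exact hk.1.inv hv hp hvp hk1
  · rw [h1, map_inv₀, hk1, inv_one]
  · have h2 : (p : ℂ) ^ 1 * 744 = (((p : ℤ) * 744 : ℤ) : ℂ) := by push_cast; ring
    rw [h2]
    exact Zp.int _
  · rw [pow_one, map_mul]
    refine mul_le_of_le_one_right (v.nonneg _) ?_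
    have := hv.apply_intCast_le_one (n := (744 : ℤ))
    exact_mod_cast this

lemma exists_third : ∀ i j : Fin 3, i ≠ j → ∃ e, e ≠ i ∧ e ≠ j := by decide

lemma cases_three (f : Fin 3 → ℝ) : (∀ i j, f i = f j) ∨
    (∃ i j e, i ≠ j ∧ e ≠ i ∧ e ≠ j ∧ f i = f j ∧ f e ≠ f i) ∨ ∀ i j, i ≠ j → f i ≠ f j := by
  by_cases h : ∀ i j, i ≠ j → f i ≠ f j
  · exact Or.inr (Or.inr h)
  · push Not at h
    obtain ⟨i, j, hij, hf⟩ := h
    obtain ⟨e, hei, hej⟩ := exists_third i j hij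
    by_cases he : f e = f i
    · left
      have h1 : ∀ l, f l = f i := by
        intro l
        have h2 : l = i ∨ l = j ∨ l = e := by
          revert hij hei hej
          clear he hf
          revert i j e l
          decide
        rcases h2 with rfl | rfl | rfl
        · rfl
        · exact hf.symm
        · exact he
      exact fun a b => (h1 a).trans (h1 b).symm
    · exact Or.inr (Or.inl ⟨i, j, e, hij, hei, hej, hf, he⟩)

/-- **bounds for the levels** at all the points -/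
theorem exists_levelData (hv : IsNonarchimedean v) (hp : p.Prime) (hvp : v (p : ℂ) < 1) {Z : Set (Fin 3 → ℂ)}
    (h : Local13 v p Z) : ∃ M : ℕ, ∀ k : ℂ, NearOne v p k → ∀ z ∈ Z,
      LevelData M fun i => ((p : ℂ) * k)⁻¹ * z i + 744 := by
  obtain ⟨hnz, ⟨⟨B₁, hA⟩, ⟨B₂, hB⟩, ⟨B₃, hC⟩⟩, ⟨B₄, hE⟩, ⟨B₅, hT⟩, ⟨B₆, hD⟩⟩ := h
  have hp0 : 0 < v (p : ℂ) := (AbsoluteValue.pos_iff v).2 (by exact_mod_cast hp.ne_zero)
  set M := B₁ + B₂ + B₃ + B₄ + B₅ + B₆ with hM
  refine ⟨M, fun k hk z hz => ?_⟩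
  have haff := affAt hv hp hvp hk
  have hk1 := hk.v_eq hv hvp
  have hl : v (((p : ℂ) * k)⁻¹) = (v (p : ℂ))⁻¹ := by rw [map_inv₀, map_mul, hk1, mul_one]
  have hl1 : 1 < v (((p : ℂ) * k)⁻¹) := by rw [hl]; exact (one_lt_inv₀ hp0).2 hvp
  have h744 : v (744 : ℂ) ≤ 1 := by
    have := hv.apply_intCast_le_one (n := (744 : ℤ))
    exact_mod_cast this
  by_cases hz1 : z ∈ atMostOne v Z
  · have hx : (fun i => ((p : ℂ) * k)⁻¹ * z i + 744) ∈ affine (fun _ : Fin 3 => ((p : ℂ) * k)⁻¹) (fun _ => 744)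
        (atMostOne v Z) := by
      change (fun i => (((p : ℂ) * k)⁻¹ * z i + 744 - 744) / ((p : ℂ) * k)⁻¹) ∈ atMostOne v Z
      have h0 : ((p : ℂ) * k)⁻¹ ≠ 0 := fun h => by
        rw [h, map_zero] at hl1
        exact absurd hl1 (by norm_num)
      rw [aff_inv (lam := fun _ : Fin 3 => ((p : ℂ) * k)⁻¹) (fun _ => h0) (fun _ => 744) z]
      exact hz1
    obtain ⟨E, hE⟩ := pointData_loc (B := M) hv (fun _ => hl1) (fun _ => h744.trans_lt hl1) (fun z hz => hz.2)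
      (fun z hz i a b N h1 h2 h3 h4 h5 h6 h7 => (hA 1 _ _ haff z hz i a b N h1 h2 h3 h4 h5 h6 h7).trans (by omega))
      (fun z hz i j a b N N' h1 h2 h3 h4 h5 h6 h7 h8 h9 h10 =>
        (hB 1 _ _ haff z hz i j a b N N' h1 h2 h3 h4 h5 h6 h7 h8 h9 h10).trans (by omega))
      (fun z hz e j a b N N' h1 h2 h3 h4 h5 h6 h7 h8 h9 h10 h11 h12 =>
        (hC 1 _ _ haff z hz e j a b N N' h1 h2 h3 h4 h5 h6 h7 h8 h9 h10 h11 h12).trans (by omega)) hx
    exact LevelData.of_pointData hE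
  · -- polar points
    have hpol : ∀ i, 1 ≤ v (z i) := by
      have h1 : ∃ i j, i ≠ j ∧ v (z i) ≠ 1 ∧ v (z j) ≠ 1 := by
        by_contra hcon
        push Not at hcon
        refine hz1 ⟨hz, fun i j hij => ?_⟩
        by_cases h2 : v (z i) = 1
        · exact Or.inl h2
        · exact Or.inr (hcon i j hij h2)
      obtain ⟨i, j, hij, hi, hj⟩ := h1
      intro a
      by_contra ha
      push Not at ha
      by_cases hai : a = i
      · subst hai
        exact hj (hnz z hz a j hij ha)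
      · exact hi (hnz z hz a i hai ha)
    have hlarge : ∀ i, 1 < v (((p : ℂ) * k)⁻¹ * z i + 744) := by
      intro i
      have h1 : 1 < v (((p : ℂ) * k)⁻¹ * z i) := by
        rw [map_mul]
        exact one_lt_mul_of_lt_of_le hl1 (hpol i)
      rw [v_add_eq hv (h744.trans_lt h1)]
      exact h1
    refine levelData_of_large hv hlarge fun N hN => ?_
    rcases cases_three fun i => v (z i) with heq | ⟨i, j, e, hij, hei, hej, h1, h2⟩ | hne
    · refine ⟨1, 2, by decide, (hE 1 _ _ haff z hz 0 1 1 2 _ _ (hpol 0) (heq 0 1) (hpol 1) (heq 1 2) (by decide)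
        (by decide) (by decide) (by decide) (hN 0 1 (by decide)).2 (hN 1 2 (by decide)).2).trans (by omega)⟩
    · refine ⟨i, j, hij, ?_⟩
      rcases lt_or_gt_of_ne h2 with h3 | h3
      · exact (hT 1 _ _ haff z hz i e i j _ (N i e) hei.symm hij (hpol e) h3 (hpol i) h1 (hN i j hij).2
          (Or.inl (hN i e hei.symm).2)).trans (by omega)
      · exact (hT 1 _ _ haff z hz e i i j _ (N e i) hei hij (hpol i) h3 (hpol i) h1 (hN i j hij).2
          (Or.inl (hN e i hei).2)).trans (by omega)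
    · obtain ⟨i, j, hij, hle⟩ := hD k hk z hz hpol hne N hN
      exact ⟨i, j, hij, hle.trans (by omega)⟩

end Pool.Agent.Helper36.Y13
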