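import Pool.Agent.Helper36.AA.MembersU

/-! # The conclusions for a curve from bounds for the levels at its points -/

open MvPolynomial Finset

namespace Pool.Agent.Helper36.Y13
open Pool.Agent.Helper11.ZP Pool.Agent.Helper11.ZU Pool.Agent.Helper20.ZD Pool.Agent.Helper20.ZT
  Pool.Agent.Helper20.ZT.Prim Pool.Agent.Helper36.DL Pool.Agent.Helper36.AA

variable {n : ℕ} {v : AbsoluteValue ℂ ℝ}

/-- what is known at the point `x` -/
structure LevelData (M : ℕ) (x : Fin n → ℂ) : Prop where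
  /-- at most one coordinate is special -/
  special : ∀ i j, IsSpecialPoint (x i) → IsSpecialPoint (x j) → i = j
  /-- a bounded level -/
  level : ∀ S : SpecialData n, x ∈ S.carrier → dim S.carrier + 2 ≤ n →
    ∃ (i j : Fin n) (N : ℕ), i ≠ j ∧ 0 < N ∧ N ≤ M ∧ CyclicIsog N (x i) (x j)

lemma LevelData.of_pointData {M : ℕ} {E : Set (Fin n)} {x : Fin n → ℂ} (h : PointData M E x) : LevelData M x :=
  ⟨fun i j hi hj => h.atMost i (h.special i hi) j (h.special j hj), fun S hx hd => exists_level h S hx hd⟩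

lemma LevelData.mono {M M' : ℕ} (hM : M ≤ M') {x : Fin n → ℂ} (h : LevelData M x) : LevelData M' x :=
  ⟨h.special, fun S hx hd => by
    obtain ⟨i, j, N, a, b, c, d⟩ := h.level S hx hd
    exact ⟨i, j, N, a, b, c.trans hM, d⟩⟩

/-- the bound for the number of points -/
noncomputable def bound (n c M : ℕ) : ℕ :=
  ∑ q ∈ (univ ×ˢ univ ×ˢ Finset.Icc 1 M : Finset (Fin n × Fin n × ℕ)),
    if hN : 0 < q.2.2 then c * ((hypPoly q.2.2 hN q.1 q.2.1).totalDegree + 1) else 0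

/-- **the conclusions from bounds for the levels** -/
theorem concl_of_level {C : Set (Fin n → ℂ)} (hC : IsSubvariety C) (h1 : dim C = 1)
    (hc : ∀ (i : Fin n) (c : ℂ), ∃ x ∈ C, x i ≠ c) {c M : ℕ} (hcount : CountC c C)
    (h : ∀ x ∈ C, LevelData M x) : Concl (bound n c M) C := by
  classical
  have hCS : ∀ S : SpecialData n, dim S.carrier < n → ¬ C ⊆ S.carrier :=
    not_special_of hC h1 (fun x hx => (h x hx).special) hc
  set T : Fin n × Fin n × ℕ → Set (Fin n → ℂ) := fun q =>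
    if hq : 0 < q.2.2 ∧ q.1 ≠ q.2.1 then {x ∈ C | eval x (hypPoly q.2.2 hq.1 q.1 q.2.1) = 0} else ∅ with hT
  set Bc : Fin n × Fin n × ℕ → ℕ := fun q =>
    if hN : 0 < q.2.2 then c * ((hypPoly q.2.2 hN q.1 q.2.1).totalDegree + 1) else 0 with hBc
  have hT1 : ∀ q, (T q).Finite ∧ (T q).ncard ≤ Bc q := by
    intro q
    by_cases hq : 0 < q.2.2 ∧ q.1 ≠ q.2.1
    · have h2 : T q = {x ∈ C | eval x (hypPoly q.2.2 hq.1 q.1 q.2.1) = 0} := dif_pos hq
      have h3 : ∃ x ∈ C, eval x (hypPoly q.2.2 hq.1 q.1 q.2.1) ≠ 0 := by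
        by_contra hcon
        push Not at hcon
        exact hCS _ (dim_hypData hq.1 hq.2) fun x hx => (mem_hypData hq.1 hq.2 x).2
          ((eval_hypPoly hq.1 _ _ _).1 (hcon x hx))
      obtain ⟨h4, h5⟩ := hcount _ h3
      rw [h2]
      have h6 : Bc q = c * ((hypPoly q.2.2 hq.1 q.1 q.2.1).totalDegree + 1) := dif_pos hq.1
      exact ⟨h4, h5.trans h6.symm.le⟩
    · have h2 : T q = ∅ := dif_neg hq
      rw [h2]
      exact ⟨Set.finite_empty, by rw [Set.ncard_empty]; exact Nat.zero_le _⟩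
  have hsubset : {x ∈ C | ∃ S : SpecialData n, dim S.carrier + 2 ≤ n ∧ x ∈ S.carrier} ⊆
      ⋃ q ∈ (univ ×ˢ univ ×ˢ Finset.Icc 1 M : Finset (Fin n × Fin n × ℕ)), T q := by
    rintro x ⟨hx, S, hS, hxS⟩
    obtain ⟨i, j, N, hij, hN, hNM, hiso⟩ := (h x hx).level S hxS hS
    rw [Set.mem_iUnion₂]
    refine ⟨(i, j, N), by simp [hNM]; omega, ?_⟩
    have h2 : T (i, j, N) = {x ∈ C | eval x (hypPoly N hN i j) = 0} := dif_pos ⟨hN, hij⟩
    rw [h2]
    exact ⟨hx, (eval_hypPoly hN _ _ _).2 hiso⟩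
  have hfinU : (⋃ q ∈ (univ ×ˢ univ ×ˢ Finset.Icc 1 M : Finset (Fin n × Fin n × ℕ)), T q).Finite :=
    Set.Finite.biUnion (Finset.finite_toSet _) fun q _ => (hT1 q).1
  have hfin := hfinU.subset hsubset
  refine ⟨hC, h1, hfin, ?_, finite_max_of hC h1 hfin hCS, hCS⟩
  calc {x ∈ C | ∃ S : SpecialData n, dim S.carrier + 2 ≤ n ∧ x ∈ S.carrier}.ncard
      ≤ (⋃ q ∈ (univ ×ˢ univ ×ˢ Finset.Icc 1 M : Finset (Fin n × Fin n × ℕ)), T q).ncard :=
        Set.ncard_le_ncard hsubset hfinU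
    _ ≤ ∑ q ∈ (univ ×ˢ univ ×ˢ Finset.Icc 1 M : Finset (Fin n × Fin n × ℕ)), (T q).ncard :=
        Finset.set_ncard_biUnion_le _ T
    _ ≤ bound n c M := Finset.sum_le_sum fun q _ => (hT1 q).2

/-- special points are integral -/
lemma v_special_le (hv : IsNonarchimedean v) {x : ℂ} (h : IsSpecialPoint x) : v x ≤ 1 :=
  mem_vring.1 (mem_of_isIntegral_int (vring v hv) h.isIntegral)

/-- no coordinate of a point with large coordinates is special -/
lemma cls_ne_none (hv : IsNonarchimedean v) {x : Fin n → ℂ} (hx : ∀ i, 1 < v (x i)) (S : SpecialData n)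
    (hxS : x ∈ S.carrier) (i : Fin n) : S.cls i ≠ none := by
  intro hn
  have h1 : IsSpecialPoint (x i) := by
    rw [hxS.1 i hn]
    exact S.hc i hn
  exact not_lt.2 (v_special_le hv h1) (hx i)

/-- points of `Y(1)³` with large coordinates: only the case in which all coordinates are isogenous matters -/
theorem levelData_of_large (hv : IsNonarchimedean v) {x : Fin 3 → ℂ} (hx : ∀ i, 1 < v (x i)) {M : ℕ}
    (h : ∀ N : Fin 3 → Fin 3 → ℕ, (∀ i j, i ≠ j → 0 < N i j ∧ CyclicIsog (N i j) (x i) (x j)) →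
      ∃ i j, i ≠ j ∧ N i j ≤ M) : LevelData M x := by
  classical
  refine ⟨fun i j hi _ => absurd (v_special_le hv hi) (not_le.2 (hx i)), fun S hxS hd => ?_⟩
  have hcls := cls_ne_none hv hx S hxS
  have hr := S.le_dim
  have h1 : ∀ i, ∃ s, S.cls i = some s := fun i => Option.ne_none_iff_exists'.1 (hcls i)
  choose s hs using h1
  have hsub : ∀ i j, s i = s j := fun i j => by
    apply Fin.ext
    have h2 := (s i).2
    have h3 := (s j).2
    omega
  have h2 : ∀ i j : Fin 3, ∃ N : ℕ, i ≠ j → 0 < N ∧ CyclicIsog N (x i) (x j) := by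
    intro i j
    obtain ⟨N, hN, hiso⟩ := class_isog S (hs i) ((hs j).trans (by rw [hsub j i]))
    exact ⟨N, fun _ => ⟨hN, hiso x hxS⟩⟩
  choose N hN using h2
  obtain ⟨i, j, hij, hM⟩ := h N hN
  exact ⟨i, j, N i j, hij, (hN i j hij).1, hM, (hN i j hij).2⟩

end Pool.Agent.Helper36.Y13
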