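import Pool.Agent.Helper36.Y13.Asm
import Pool.Agent.Helper11.AB.Rel
import Pool.Agent.Helper20.NB.LocalN
import Pool.Agent.Helper69.Y13.Defs

/-! # Curves in `Y(1)³` with common poles: the local data -/

open MvPolynomial Finset

namespace Pool.Agent.Helper36.Y13
open Pool.Agent.Helper11.ZP Pool.Agent.Helper11.ZU Pool.Agent.Helper20.ZD Pool.Agent.Helper36.DL
  Pool.Agent.Helper36.AA Pool.Agent.Helper69.DL Pool.Agent.Helper11.AB

variable {n : ℕ} {v : AbsoluteValue ℂ ℝ} {p K L : ℕ} {T : Finset (ℤ × ℤ)}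
  {H : (Fin n → ℤ) → (Fin n → ℤ) → MvPolynomial (Fin 2) ℤ} {Z : Set (Fin n → ℂ)}

/-- monomials without zeros and poles are integral -/
lemma v_monomial_le {z : Fin n → ℂ} {a : Fin n → ℤ} (h1 : ∀ i, v (z i) < 1 → 0 ≤ a i)
    (h2 : ∀ i, 1 < v (z i) → a i ≤ 0) : v (∏ i, z i ^ a i) ≤ 1 := by
  rw [map_prod]
  refine prod_le_one (fun i _ => v.nonneg _) fun i _ => ?_
  rw [map_zpow₀]
  rcases lt_trichotomy (v (z i)) 1 with h | h | h
  · obtain ⟨k, hk⟩ := Int.eq_ofNat_of_zero_le (h1 i h)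
    rw [hk, zpow_natCast]
    exact pow_le_one₀ (v.nonneg _) h.le
  · rw [h, one_zpow]
  · obtain ⟨k, hk⟩ := Int.eq_ofNat_of_zero_le (neg_nonneg.2 (h2 i h))
    have h3 : a i = -(k : ℤ) := by omega
    rw [h3, zpow_neg, zpow_natCast]
    exact inv_le_one_of_one_le₀ (one_le_pow₀ h.le)

/-- **the points with at most one coordinate which is not a unit** -/
theorem localNear_of (hp : p.Prime) (hvp : v (p : ℂ) < 1) (h : LocalRel v p K L T H Z) (hL : 2 ≤ L) (hK : 1 ≤ K) :
    Helper20.NB.LocalNear v p (atMostOne v Z) := by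
  have hp0 : 0 < v (p : ℂ) := (AbsoluteValue.pos_iff v).2 (by exact_mod_cast hp.ne_zero)
  have hK' : (1 : ℤ) ≤ K := by exact_mod_cast hK
  have hp1 : v (p : ℂ) ^ L ≤ v (p : ℂ) := pow_le_of_le_one hp0.le hvp.le (by omega)
  have hp2 : v (p : ℂ) ^ L < v (p : ℂ) := by
    have h1 : v (p : ℂ) ^ L ≤ v (p : ℂ) ^ 2 := pow_le_pow_of_le_one hp0.le hvp.le hL
    refine h1.trans_lt ?_
    rw [sq]
    exact mul_lt_of_lt_one_left hp0 hvp
  refine ⟨fun z hz => hz.2, fun a b ha hb hab => ⟨H a b, 0, h.good a b (fun i => (ha i).trans hK')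
    (fun i => (hb i).trans hK') hab, ?_, fun m => ?_, fun i _ _ => ?_, ?_⟩⟩
  · intro z hz h0 h1 h2
    exact (h.holds a b hab z hz.1 h0 (v_monomial_le (fun i hi => (h1 i hi).1) fun i hi => (h2 i hi).1)
      (v_monomial_le (fun i hi => (h1 i hi).2) fun i hi => (h2 i hi).2)).trans hp1
  · rw [coeff_zero, map_zero]
    exact zero_le_one
  · rw [vars_0]
    exact ⟨notMem_empty _, notMem_empty _⟩
  · intro z hz h0
    rw [map_zero, mul_zero, sub_zero]
    have h1 : ∀ c : Fin n → ℤ, (∀ i, a i = 0 → b i = 0 → c i = 0) → v (∏ i, z i ^ c i) ≤ 1 := by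
      intro c hc
      refine v_monomial_le (fun i hi => ?_) fun i hi => ?_
      · rcases h0 i with h2 | ⟨h2, h3⟩
        · rw [h2] at hi
          exact absurd hi (lt_irrefl _)
        · exact (hc i h2 h3).ge
      · rcases h0 i with h2 | ⟨h2, h3⟩
        · rw [h2] at hi
          exact absurd hi (lt_irrefl _)
        · exact (hc i h2 h3).le
    refine (h.holds a b hab z hz.1 (fun i hi => ?_) (h1 a fun i h _ => h) (h1 b fun i _ h => h)).trans_lt hp2
    rcases h0 i with h2 | ⟨h2, h3⟩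
    · rw [hi, map_zero] at h2
      exact absurd h2 zero_ne_one
    · exact ⟨h2.ge, h3.ge⟩

/-- the exponent vectors are independent -/
lemma indep_single {e : Fin n} {c : Fin n → ℤ} (hc : c ≠ 0) (hsum : ∑ i, c i = 0) :
    Indep (Pi.single e (-1)) c := by
  classical
  intro s t hst
  have h1 : ∃ i, i ≠ e ∧ c i ≠ 0 := by
    by_contra hcon
    push Not at hcon
    have h2 : ∑ i, c i = c e := Finset.sum_eq_single e (fun i _ hi => hcon i hi) fun h => absurd (mem_univ e) h
    refine hc (funext fun i => ?_)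
    by_cases hi : i = e
    · rw [hi, ← h2, hsum, Pi.zero_apply]
    · exact hcon i hi
  obtain ⟨i, hi, hci⟩ := h1
  have ht : t = 0 := by
    have h2 := hst i
    rw [Pi.single_eq_of_ne hi, mul_zero, zero_add] at h2
    rcases mul_eq_zero.1 h2 with h | h
    · exact h
    · exact absurd h hci
  refine ⟨?_, ht⟩
  have h2 := hst e
  rw [Pi.single_eq_same, ht, zero_mul, add_zero] at h2
  omega

/-- **the relations for three different absolute values** -/
theorem local3_of (h : LocalRel v p K L T H Z)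
    (hgood : ∀ (e : Fin n) (c : Fin n → ℤ), c ≠ 0 → ∑ i, c i = 0 → (∀ i, |c i| ≤ K) →
      (∀ m ∈ (H (Pi.single e (-1)) c).support, m 0 + 1 ≤ L ∧ m 1 + 1 ≤ L) ∧
      (∃ m : Fin 2 →₀ ℕ, m 0 = 0 ∧ v (((H (Pi.single e (-1)) c).coeff m : ℤ) : ℂ) = 1) ∧
      Helper69.Y13.SepRoots v (H (Pi.single e (-1)) c) ∧ Helper69.Y13.NonWief v p (H (Pi.single e (-1)) c)) :
    Helper69.Y13.Local3 v p K Z := by
  refine ⟨fun e c hc hsum hcK => ?_⟩
  obtain ⟨h1, h2, h3, h4⟩ := hgood e c hc hsum hcK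
  have hL : 1 ≤ L := by
    by_contra hcon
    obtain ⟨m, -, hm⟩ := h2
    have h5 : m ∈ (H (Pi.single e (-1)) c).support := by
      rw [mem_support_iff]
      intro h0
      rw [h0, Int.cast_zero, map_zero] at hm
      exact zero_ne_one hm
    have := (h1 m h5).1
    omega
  refine ⟨H (Pi.single e (-1)) c, L - 1, fun m hm => ?_, h2, h3, h4, ?_⟩
  · have := h1 m hm
    omega
  · rw [Nat.sub_add_cancel hL]
    exact h.holds _ _ (indep_single hc hsum)

end Pool.Agent.Helper36.Y13
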