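import Pool.Agent.Helper22.AA.Polar

/-! # Case B at the points at which the coordinates are not integral, with relations modulo `p ^ 2`

The same as `Helper22.AA.Polar`, for relations which hold only modulo `p ^ 2`. -/

open MvPolynomial Finset

namespace Pool.Agent.Helper36.Y13
open Pool.Agent.Helper11.ZP Pool.Agent.Helper11.ZU Pool.Agent.Helper20.ZD Pool.Agent.Helper11.LC
  Pool.Agent.Helper69.DL Pool.Agent.Helper36.DL Pool.Agent.Helper20.DL Pool.Agent.Helper22.DL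
  Pool.Agent.Helper20.NB Pool.Agent.Helper81.DL Pool.Agent.Helper22.AA

variable {n : ℕ} {v : AbsoluteValue ℂ ℝ} {p m M : ℕ} {lam a b c : Fin n → ℂ}

/-- `H(z ^ a, z ^ b) = 0` modulo `p ^ 2`, at the points at which `z ^ a`, `z ^ b` are integral -/
def HoldsSq (v : AbsoluteValue ℂ ℝ) (p : ℕ) (H : MvPolynomial (Fin 2) ℤ) (V : Set (Fin n → ℂ))
    (a b : Fin n → ℤ) : Prop :=
  ∀ z ∈ V, (∀ i, z i = 0 → 0 ≤ a i ∧ 0 ≤ b i) → v (∏ i, z i ^ a i) ≤ 1 → v (∏ i, z i ^ b i) ≤ 1 →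
    v (ev H (∏ i, z i ^ a i) (∏ i, z i ^ b i)) ≤ v (p : ℂ) ^ 2

/-- relations modulo `p ^ 2` between the monomials with exponents `-1, 0, 1` -/
def RelSq (v : AbsoluteValue ℂ ℝ) (p : ℕ) (V : Set (Fin n → ℂ)) : Prop :=
  ∀ a b : Fin n → ℤ, (∀ i, |a i| ≤ 1) → (∀ i, |b i| ≤ 1) →
    (∀ s t : ℤ, (∀ i, s * a i + t * b i = 0) → s = 0 ∧ t = 0) →
      ∃ H : MvPolynomial (Fin 2) ℤ, GoodRel v p H ∧ HoldsSq v p H V a b

/-- **case B at polar points** for a class of affine maps and one quadruple of indices -/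
theorem classBPsq_one (hv : IsNonarchimedean v) (hp : p.Prime) (hvp : v (p : ℂ) < 1) {V : Set (Fin n → ℂ)}
    (hrel : RelSq v p V) (hb : Base v p M b c) {i j k l : Fin n} (hij : i ≠ j) (hkl : k ≠ l)
    (hli : l ≠ i) (hlj : l ≠ j) :
    ∃ B : ℕ, ∀ (m : ℕ) (lam a : Fin n → ℂ), Cls v p b c m lam a → ∀ z ∈ V, ∀ (N N' : ℕ), 1 ≤ v (z i) →
      v (z i) = v (z j) → 1 ≤ v (z k) → v (z k) = v (z l) → CyclicIsog N (lam i * z i + a i) (lam j * z j + a j) →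
        CyclicIsog N' (lam k * z k + a k) (lam l * z l + a l) → N' ≤ B := by
  classical
  have hp0 : (p : ℂ) ≠ 0 := by exact_mod_cast hp.ne_zero
  have hvp0 : 0 < v (p : ℂ) := (AbsoluteValue.pos_iff v).2 hp0
  obtain ⟨τ, δ, hτM, hτ, hδ, hτδ⟩ := exists_teich hv hp hvp hb
  -- the main relation
  obtain ⟨H, hH, hHV⟩ := hrel (diff i j) (diff k l) (abs_diff_le i j) (abs_diff_le k l)
    (diff_indep hij hkl hli hlj)
  have hnegv : ∀ t r : Fin n, |negv t r| ≤ 1 := by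
    intro t r
    unfold negv
    split_ifs <;> simp
  set q : Fin 4 → Fin n := ![i, j, k, l] with hq
  -- the other relations
  have hG : ∀ s : Fin 4, ∃ G : MvPolynomial (Fin 2) ℤ, GoodRel v p G ∧
      HoldsSq v p G V (negv (q s)) (if s < 2 then diff i j else diff k l) := by
    intro s
    fin_cases s
    · exact hrel (negv i) (diff i j) (hnegv i) (abs_diff_le i j) (negv_indep_left hij)
    · exact hrel (negv j) (diff i j) (hnegv j) (abs_diff_le i j) (negv_indep_right hij)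
    · exact hrel (negv k) (diff k l) (hnegv k) (abs_diff_le k l) (negv_indep_left hkl)
    · exact hrel (negv l) (diff k l) (hnegv l) (abs_diff_le k l) (negv_indep_right hkl)
  choose G hGg hGm using hG
  set jj : Fin 4 → Fin 2 := fun s => if s < 2 then 0 else 1 with hjj
  -- the first order terms
  have hκ : ∀ κ : ℂ, v κ ≤ 1 → ∃ B : ℕ, ∀ (x y : ℂ) (u : Fin 4 → ℂ) (ζ₁ ζ₂ : ℂ) (g₁ g₂ : ℕ), 0 < g₁ →
      0 < g₂ → IsPrimitiveRoot ζ₁ g₁ → IsPrimitiveRoot ζ₂ g₂ → v x ≤ 1 → v y ≤ 1 → (∀ i, v (u i) ≤ 1) →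
      (∀ i, v (ev (G i) (u i) (![x, y] (jj i))) < 1) → v (ev H x y) < v (p : ℂ) →
      v (x - ζ₁ * (1 + p * ((δ j - δ i) + (bet p b c κ j * u 1 + (-bet p b c κ i) * u 0)))) <
        v (p : ℂ) →
      v (y - ζ₂ * (1 + p * ((δ l - δ k) + (bet p b c κ l * u 3 + (-bet p b c κ k) * u 2)))) <
        v (p : ℂ) → g₁ ≤ B ∧ g₂ ≤ B := by
    intro κ hκ
    have hsub : ∀ {s t : ℂ}, v s ≤ 1 → v t ≤ 1 → s - t ∈ ball hv := fun {s t} hs ht =>
      (v_sub_le hv _ _).trans (max_le hs ht)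
    have hneg : ∀ {s : ℂ}, v s ≤ 1 → -s ∈ ball hv := fun {s} hs => by
      rw [mem_ball, map_neg_eq_map]
      exact hs
    obtain ⟨B, hB⟩ := torsion_near hv hp hvp hH hGg jj 0
      (spoly4 hv ⟨δ j - δ i, hsub (hδ j) (hδ i)⟩ ⟨bet p b c κ j, v_bet hv hvp0 hb hκ j⟩
        ⟨-bet p b c κ i, hneg (v_bet hv hvp0 hb hκ i)⟩ 0 1)
      (spoly4 hv ⟨δ l - δ k, hsub (hδ l) (hδ k)⟩ ⟨bet p b c κ l, v_bet hv hvp0 hb hκ l⟩
        ⟨-bet p b c κ k, hneg (v_bet hv hvp0 hb hκ k)⟩ 2 3)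
    refine ⟨B, fun x y u ζ₁ ζ₂ g₁ g₂ h1 h2 h3 h4 h5 h6 h7 h8 h9 h10 h11 => ?_⟩
    refine hB x y u ζ₁ ζ₂ g₁ g₂ h1 h2 h3 h4 h5 h6 h7 (fun i => h8 i) ?_ ?_ ?_
    · rw [wev, eval₂_zero, mul_zero, sub_zero]
      exact h9
    · rw [wev_spoly4]
      exact h10
    · rw [wev_spoly4]
      exact h11
  obtain ⟨B₁, hB₁⟩ := hκ (kap 1) (v_kap hv 1)
  obtain ⟨B₂, hB₂⟩ := hκ (kap 2) (v_kap hv 2)
  refine ⟨(max B₁ B₂ * M) ^ 2, ?_⟩
  intro m lam a hcls z hz N N' hi hij' hk hkl' hN hN'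
  have hj : 1 ≤ v (z j) := hij' ▸ hi
  have hl' : 1 ≤ v (z l) := hkl' ▸ hk
  have hz0 : ∀ {r}, 1 ≤ v (z r) → z r ≠ 0 := fun {r} hr => (AbsoluteValue.pos_iff v).1 (one_pos.trans_le hr)
  have hqu : ∀ r, 1 ≤ v (z (q r)) := by
    intro r
    fin_cases r
    · exact hi
    · exact hj
    · exact hk
    · exact hl'
  obtain ⟨g₁, ζ₁, a1, a2, a3, a4⟩ := ratio_finalP hv hvp0 hvp hb hcls hτ hδ hτδ hi hij' hN
  obtain ⟨g₂, ζ₂, b1, b2, b3, b4⟩ := ratio_finalP hv hvp0 hvp hb hcls hτ hδ hτδ hk hkl' hN'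
  -- the roots of unity
  have hroot : ∀ {s t : Fin n} {ζ : ℂ} {g : ℕ}, 0 < g → IsPrimitiveRoot ζ g →
      0 < orderOf (τ s / τ t * ζ) ∧ g ≤ orderOf (τ s / τ t * ζ) * M := by
    intro s t ζ g hg hζ
    have hpow : (τ s / τ t * ζ) ^ (g * M) = 1 := by
      rw [mul_pow, div_pow, mul_comm g M, pow_mul, pow_mul, pow_mul, hτM, hτM, one_pow, div_one, one_mul,
        ← pow_mul, mul_comm M g, pow_mul, hζ.pow_eq_one, one_pow]
    have h1 : 0 < orderOf (τ s / τ t * ζ) := orderOf_pos_iff.2 (isOfFinOrder_iff_pow_eq_one.2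
      ⟨g * M, Nat.mul_pos hg hb.pos, hpow⟩)
    refine ⟨h1, Nat.le_of_dvd (Nat.mul_pos h1 hb.pos) (hζ.dvd_of_pow_eq_one _ ?_)⟩
    have hst : τ s / τ t ≠ 0 := by
      rw [← AbsoluteValue.ne_zero_iff v, map_div₀, hτ, hτ, div_one]
      exact one_ne_zero
    have h2 : (τ s / τ t) ^ (orderOf (τ s / τ t * ζ) * M) = 1 := by
      rw [mul_comm, pow_mul, div_pow, hτM, hτM, div_one, one_pow]
    have h3 : (τ s / τ t * ζ) ^ (orderOf (τ s / τ t * ζ) * M) = 1 := by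
      rw [pow_mul, pow_orderOf_eq_one, one_pow]
    rw [mul_pow, h2, one_mul] at h3
    exact h3
  obtain ⟨c1, -⟩ := hroot (s := j) (t := i) a1 a3
  obtain ⟨c2, c3⟩ := hroot (s := l) (t := k) b1 b3
  set u : Fin 4 → ℂ := fun s => (z (q s))⁻¹ with hu
  have huv : ∀ s, v (u s) ≤ 1 := by
    intro s
    rw [hu]
    change v (z (q s))⁻¹ ≤ 1
    rw [map_inv₀]
    exact inv_le_one_of_one_le₀ (hqu s)
  have hx1 : v (z i / z j) = 1 := by
    rw [map_div₀, hij']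
    exact div_self (one_pos.trans_le hj).ne'
  have hy1 : v (z k / z l) = 1 := by
    rw [map_div₀, hkl']
    exact div_self (one_pos.trans_le hl').ne'
  have hne : ∀ {q r}, z q = 0 → 1 ≤ v (z r) → q ≠ r := fun {q r} hq hr h => hz0 hr (h ▸ hq)
  have hsq : v (p : ℂ) ^ 2 < v (p : ℂ) := by
    rw [sq]
    exact mul_lt_of_lt_one_left hvp0 hvp
  have hHz : v (ev H (z i / z j) (z k / z l)) < v (p : ℂ) := by
    have h3 := hHV z hz (fun q hq => by
      unfold diff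
      simp [hne hq hi, hne hq hj, hne hq hk, hne hq hl'])
    rw [prod_diff z (hz0 hi) (hz0 hj), prod_diff z (hz0 hk) (hz0 hl')] at h3
    exact (h3 hx1.le hy1.le).trans_lt hsq
  have hGz : ∀ s, v (ev (G s) (u s) (![z i / z j, z k / z l] (jj s))) < 1 := by
    intro s
    have h1 := hGm s z hz (fun t ht => by
      have h0 : t ≠ q s := hne ht (hqu s)
      have hi' := hne ht hi
      have hj' := hne ht hj
      have hk' := hne ht hk
      have hl'' := hne ht hl'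
      have e1 : negv (q s) t = 0 := if_neg h0
      have e2 : diff i j t = 0 := by
        unfold diff
        rw [if_neg hi', if_neg hj', sub_zero]
      have e3 : diff k l t = 0 := by
        unfold diff
        rw [if_neg hk', if_neg hl'', sub_zero]
      refine ⟨e1.ge, ?_⟩
      split_ifs
      · exact e2.ge
      · exact e3.ge)
    rw [prod_negv] at h1
    by_cases hs : s < 2
    · rw [if_pos hs, prod_diff z (hz0 hi) (hz0 hj)] at h1
      have h2 : jj s = 0 := if_pos hs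
      rw [h2]
      exact (h1 (huv s) hx1.le).trans_lt (hsq.trans hvp)
    · rw [if_neg hs, prod_diff z (hz0 hk) (hz0 hl')] at h1
      have h2 : jj s = 1 := if_neg hs
      rw [h2]
      exact (h1 (huv s) hy1.le).trans_lt (hsq.trans hvp)
  have hcon : ∀ B' : ℕ, (∀ (x y : ℂ) (u : Fin 4 → ℂ) (ζ₁ ζ₂ : ℂ) (g₁ g₂ : ℕ), 0 < g₁ →
      0 < g₂ → IsPrimitiveRoot ζ₁ g₁ → IsPrimitiveRoot ζ₂ g₂ → v x ≤ 1 → v y ≤ 1 → (∀ i, v (u i) ≤ 1) →
      (∀ i, v (ev (G i) (u i) (![x, y] (jj i))) < 1) → v (ev H x y) < v (p : ℂ) →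
      v (x - ζ₁ * (1 + p * ((δ j - δ i) + (bet p b c (kap m) j * u 1 +
        (-bet p b c (kap m) i) * u 0)))) < v (p : ℂ) →
      v (y - ζ₂ * (1 + p * ((δ l - δ k) + (bet p b c (kap m) l * u 3 +
        (-bet p b c (kap m) k) * u 2)))) < v (p : ℂ) → g₁ ≤ B' ∧ g₂ ≤ B') → B' ≤ max B₁ B₂ →
      N' ≤ (max B₁ B₂ * M) ^ 2 := by
    intro B' hB' hle
    obtain ⟨-, h2⟩ := hB' (z i / z j) (z k / z l) u _ _ _ _ c1 c2 (IsPrimitiveRoot.orderOf _)
      (IsPrimitiveRoot.orderOf _) hx1.le hy1.le huv hGz hHz a4 b4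
    rw [b2]
    exact Nat.pow_le_pow_left (c3.trans (Nat.mul_le_mul_right M (h2.trans hle))) 2
  by_cases hm : m = 1
  · subst hm
    exact hcon B₁ hB₁ (le_max_left _ _)
  · have h1 : Helper20.NB.kap m = Helper20.NB.kap 2 := by
      unfold Helper20.NB.kap
      rw [if_neg hm, if_neg (by norm_num)]
    refine hcon B₂ ?_ (le_max_right _ _)
    rw [h1]
    exact hB₂

/-- **case B at polar points** for a class of affine maps -/
theorem classBPsq (hv : IsNonarchimedean v) (hp : p.Prime) (hvp : v (p : ℂ) < 1) {V : Set (Fin n → ℂ)}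
    (hrel : RelSq v p V) (hb : Base v p M b c) :
    ∃ B : ℕ, ∀ (m : ℕ) (lam a : Fin n → ℂ), Cls v p b c m lam a → ∀ z ∈ V, ∀ (i j k l : Fin n) (N N' : ℕ),
      1 ≤ v (z i) → v (z i) = v (z j) → 1 ≤ v (z k) → v (z k) = v (z l) → i ≠ j → k ≠ l → l ≠ i → l ≠ j →
        CyclicIsog N (lam i * z i + a i) (lam j * z j + a j) →
          CyclicIsog N' (lam k * z k + a k) (lam l * z l + a l) → N' ≤ B := by
  classical
  have h2 : ∀ q : Fin n × Fin n × Fin n × Fin n, ∃ B : ℕ, q.1 ≠ q.2.1 → q.2.2.1 ≠ q.2.2.2 →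
      q.2.2.2 ≠ q.1 → q.2.2.2 ≠ q.2.1 →
      ∀ (m : ℕ) (lam a : Fin n → ℂ), Cls v p b c m lam a → ∀ z ∈ V, ∀ (N N' : ℕ), 1 ≤ v (z q.1) →
        v (z q.1) = v (z q.2.1) → 1 ≤ v (z q.2.2.1) → v (z q.2.2.1) = v (z q.2.2.2) →
          CyclicIsog N (lam q.1 * z q.1 + a q.1) (lam q.2.1 * z q.2.1 + a q.2.1) →
            CyclicIsog N' (lam q.2.2.1 * z q.2.2.1 + a q.2.2.1) (lam q.2.2.2 * z q.2.2.2 + a q.2.2.2) →
              N' ≤ B := by
    rintro ⟨i, j, k, l⟩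
    by_cases h : i ≠ j ∧ k ≠ l ∧ l ≠ i ∧ l ≠ j
    · obtain ⟨B, hB⟩ := classBPsq_one hv hp hvp hrel hb h.1 h.2.1 h.2.2.1 h.2.2.2
      exact ⟨B, fun _ _ _ _ => hB⟩
    · exact ⟨0, fun a b c d => absurd ⟨a, b, c, d⟩ h⟩
  choose B hB using h2
  refine ⟨univ.sup B, fun m lam a h z hz i j k l N N' hi hj hk hl' hij hkl hli hlj hN hN' => ?_⟩
  exact (hB (i, j, k, l) hij hkl hli hlj m lam a h z hz N N' hi hj hk hl' hN hN').trans
    (Finset.le_sup (mem_univ (i, j, k, l)))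

/-- **case B at all points with equal absolute values**, uniformly -/
theorem unifBPsq (hv : IsNonarchimedean v) (hp : p.Prime) (hvp : v (p : ℂ) < 1) {V : Set (Fin n → ℂ)}
    (hrel : RelSq v p V) : UnifBP v p V := by
  classical
  have h1 : ∀ s : Fin n → Fin (p ^ 2) × Fin (p ^ 2), ∃ B : ℕ,
      Base v p (p - 1) (fun i => (((s i).1 : ℕ) : ℂ)) (fun i => (((s i).2 : ℕ) : ℂ)) →
      ∀ (m : ℕ) (lam a : Fin n → ℂ), Cls v p (fun i => (((s i).1 : ℕ) : ℂ)) (fun i => (((s i).2 : ℕ) : ℂ)) m lam a →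
      ∀ z ∈ V, ∀ (i j k l : Fin n) (N N' : ℕ),
      1 ≤ v (z i) → v (z i) = v (z j) → 1 ≤ v (z k) → v (z k) = v (z l) → i ≠ j → k ≠ l → l ≠ i → l ≠ j →
        CyclicIsog N (lam i * z i + a i) (lam j * z j + a j) →
          CyclicIsog N' (lam k * z k + a k) (lam l * z l + a l) → N' ≤ B := by
    intro s
    by_cases hs : Base v p (p - 1) (fun i => (((s i).1 : ℕ) : ℂ)) (fun i => (((s i).2 : ℕ) : ℂ))
    · obtain ⟨B, hB⟩ := classBPsq hv hp hvp hrel hs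
      exact ⟨B, fun _ => hB⟩
    · exact ⟨0, fun h => absurd h hs⟩
  choose B hB using h1
  refine ⟨univ.sup B, fun m lam a h z hz i j k l N N' h1 h2 h3 h4 h5 h6 h7 h8 h9 h10 => ?_⟩
  obtain ⟨s, hbase, hcls⟩ := exists_class hv hp hvp h
  exact (hB s hbase m lam a hcls z hz i j k l N N' h1 h2 h3 h4 h5 h6 h7 h8 h9 h10).trans
    (Finset.le_sup (mem_univ s))

end Pool.Agent.Helper36.Y13
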