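import Pool.Agent.Helper36.Y13.Mem
import Pool.Agent.Helper36.Y13.Loc
import Pool.Agent.Helper36.Y13.PolarSq
import Pool.Agent.Helper11.AB.NZ
import Pool.Agent.Helper22.AA.SepRoots
import Pool.Agent.Helper69.Y13.Unif3
import Pool.Agent.Helper81.Y13.Dens

/-! # Members of linear systems of curves in `Y(1)³` -/

open MvPolynomial Finset

namespace Pool.Agent.Helper36.Y13
open Pool.Agent.Helper11.ZP Pool.Agent.Helper11.ZU Pool.Agent.Helper20.ZD Pool.Agent.Helper36.DL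
  Pool.Agent.Helper36.AA Pool.Agent.Helper69.DL Pool.Agent.Helper11.AB Pool.Agent.Helper69.Y13

variable {r n : ℕ} {v : AbsoluteValue ℂ ℝ} {p : ℕ}

/-- three different real numbers -/
lemma exists_sorted (f : Fin 3 → ℝ) (h : ∀ i j, i ≠ j → f i ≠ f j) :
    ∃ i j l : Fin 3, i ≠ j ∧ i ≠ l ∧ j ≠ l ∧ f l < f j ∧ f j < f i := by
  have h01 := h 0 1 (by decide)
  have h02 := h 0 2 (by decide)
  have h12 := h 1 2 (by decide)
  rcases lt_or_gt_of_ne h01 with a | a <;> rcases lt_or_gt_of_ne h02 with b | b <;>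
    rcases lt_or_gt_of_ne h12 with c | c
  · exact ⟨2, 1, 0, by decide, by decide, by decide, a, c⟩
  · exact ⟨1, 2, 0, by decide, by decide, by decide, b, c⟩
  · exact absurd (a.trans c) (not_lt.2 b.le)
  · exact ⟨1, 0, 2, by decide, by decide, by decide, b, a⟩
  · exact ⟨2, 0, 1, by decide, by decide, by decide, a, b⟩
  · exact absurd (b.trans c) (not_lt.2 a.le)
  · exact ⟨0, 2, 1, by decide, by decide, by decide, c, b⟩
  · exact ⟨0, 1, 2, by decide, by decide, by decide, c, a⟩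

/-- **the case of three different absolute values** -/
theorem unif3_of (hv : IsNonarchimedean v) (hp : p.Prime) (hvp : v (p : ℂ) < 1) {K : ℕ} (hK : 0 < K)
    {Z : Set (Fin 3 → ℂ)} (hloc : Pool.Agent.Helper20.PL.LocalPol v p (K ^ 2) Z)
    (htrop : ∀ z ∈ Z, ∀ e f, e ≠ f → 1 ≤ v (z f) → v (z f) < v (z e) →
      ∃ al be : ℕ, be < al ∧ al ≤ K ∧ v (z e) ^ be = v (z f) ^ al)
    (h3 : Local3 v p (K ^ 2) Z) : Unif3 v p Z := by
  obtain ⟨B, hB⟩ := unif3 hv hp hvp hK hloc htrop h3 (m := 1) le_rfl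
  refine ⟨B, fun k hk z hz h1 hne N hN => ?_⟩
  have hpC : (p : ℂ) ≠ 0 := by exact_mod_cast hp.ne_zero
  have hk1 := hk.v_eq hv hvp
  have hk0 : k ≠ 0 := fun h => by
    rw [h, map_zero] at hk1
    exact zero_ne_one hk1
  have hl : (p : ℂ) ^ 1 * ((p : ℂ) * k)⁻¹ = k⁻¹ := by
    rw [pow_one, mul_inv, ← mul_assoc, mul_inv_cancel₀ hpC, one_mul]
  obtain ⟨i, j, l, hij, hil, hjl, hlj, hji⟩ := exists_sorted (fun i => v (z i)) hne
  refine ⟨i, j, hij, hB ((p : ℂ) * k)⁻¹ ?_ ?_ z hz i j l (h1 l) hlj hji ⟨_, hN i j hij⟩ ⟨_, hN i l hil⟩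
    ⟨_, hN j l hjl⟩ _ (hN i j hij).2⟩
  · rw [hl, map_inv₀, hk1, inv_one]
  · have h2 : k⁻¹ - 1 = -(k⁻¹ * (k - 1)) := by
      field_simp
      ring
    rw [hl, h2, map_neg_eq_map, map_mul, map_inv₀, hk1, inv_one, one_mul]
    exact hk.2

/-- **the case of equal absolute values** -/
theorem unifBP_of (hv : IsNonarchimedean v) (hp : p.Prime) (hvp : v (p : ℂ) < 1) {K L : ℕ} {T : Finset (ℤ × ℤ)}
    {H : (Fin n → ℤ) → (Fin n → ℤ) → MvPolynomial (Fin 2) ℤ} {Z : Set (Fin n → ℂ)}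
    (h : LocalRel v p K L T H Z) (hL : 2 ≤ L) (hK : 1 ≤ K) : Helper22.AA.UnifBP v p Z := by
  have hK' : (1 : ℤ) ≤ K := by exact_mod_cast hK
  refine unifBPsq hv hp hvp fun a b ha hb hab => ⟨H a b, h.good a b (fun i => (ha i).trans hK')
    (fun i => (hb i).trans hK') hab, fun z hz h0 h1 h2 => ?_⟩
  exact (h.holds a b hab z hz h0 h1 h2).trans (pow_le_pow_of_le_one (v.nonneg _) hvp.le hL)

/-- **the local data** for a good class -/
theorem local13_of (hv : IsNonarchimedean v) (hp : p.Prime) (hvp : v (p : ℂ) < 1) {K L : ℕ} {T : Finset (ℤ × ℤ)}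
    {H : (Fin 3 → ℤ) → (Fin 3 → ℤ) → MvPolynomial (Fin 2) ℤ} {Z : Set (Fin 3 → ℂ)} (hK : 0 < K) (hL : 2 ≤ L)
    (hT : ∀ c ∈ T, |c.2| ≤ (K : ℤ)) (h : LocalRel v p (K ^ 2) L T H Z)
    (hgood : ∀ (e : Fin 3) (c : Fin 3 → ℤ), c ≠ 0 → ∑ i, c i = 0 → (∀ i, |c i| ≤ (K ^ 2 : ℕ)) →
      (∀ m ∈ (H (Pi.single e (-1)) c).support, m 0 + 1 ≤ L ∧ m 1 + 1 ≤ L) ∧
      (∃ m : Fin 2 →₀ ℕ, m 0 = 0 ∧ v (((H (Pi.single e (-1)) c).coeff m : ℤ) : ℂ) = 1) ∧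
      SepRoots v (H (Pi.single e (-1)) c) ∧ NonWief v p (H (Pi.single e (-1)) c)) :
    Local13 v p Z := by
  have hK2 : 1 ≤ K ^ 2 := Nat.one_le_pow _ _ hK
  have hKle : (K : ℤ) ≤ (K ^ 2 : ℕ) := by
    rw [sq]
    exact_mod_cast Nat.le_mul_of_pos_left K hK
  have hpol := h.localPol hvp.le (by omega) hK2 fun c hc => (hT c hc).trans hKle
  refine ⟨h.nz, Helper20.NB.localNear_unif hv hp hvp (localNear_of hp hvp h hL hK2),
    unifBP_of hv hp hvp h hL hK2, Helper20.PL.unifP hv hp hvp hK2 hpol, ?_⟩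
  refine unif3_of hv hp hvp hK hpol (fun z hz e f hef hf hfe => ?_) (local3_of h hgood)
  refine OnLine.exponents (h.trop z hz e f hef ?_ ?_) hf hfe hK hT
  · intro h0
    rw [h0, map_zero] at hfe
    exact absurd hf (not_le.2 (hfe.trans one_pos))
  · intro h0
    rw [h0, map_zero] at hf
    exact absurd hf (not_le.2 one_pos)

/-- an irreducible polynomial in which `Y` occurs has a monomial without `X` -/
lemma exists_mono {σ : Type} {H : MvPolynomial (Fin 2) (MvPolynomial σ ℤ)} (hH : Irreducible H)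
    (h1 : 0 < H.degreeOf 1) : ∃ m : Fin 2 →₀ ℕ, m 0 = 0 ∧ H.coeff m ≠ 0 := by
  by_contra hcon
  push Not at hcon
  have h2 : X 0 ∣ H := by
    rw [X_dvd_iff_modMonomial_eq_zero]
    refine MvPolynomial.ext _ _ fun m => ?_
    by_cases hm : m 0 = 0
    · rw [coeff_modMonomial_of_not_le, hcon m hm, coeff_zero]
      intro hle
      have := hle 0
      rw [Finsupp.single_eq_same] at this
      omega
    · rw [coeff_modMonomial_of_le, coeff_zero]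
      rw [Finsupp.single_le_iff]
      omega
  obtain ⟨G, hG⟩ := h2
  have h3 : ¬ IsUnit (X 0 : MvPolynomial (Fin 2) (MvPolynomial σ ℤ)) := by
    intro h
    have h4 := h.map (eval (fun _ => (0 : MvPolynomial σ ℤ)))
    rw [eval_X] at h4
    exact not_isUnit_zero h4
  have h4 : IsUnit G := (hH.isUnit_or_isUnit hG).resolve_left h3
  have h5 : H.degreeOf 1 = 0 := by
    rw [hG]
    refine Nat.le_zero.1 ((degreeOf_mul_le _ _ _).trans ?_)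
    obtain ⟨c, hc, rfl⟩ := (isUnit_iff_eq_C_of_isReduced).1 h4
    rw [degreeOf_C, add_zero, degreeOf_X, if_neg (by decide)]
  omega

/-- a bound for the exponents in `T` -/
lemma exists_bound (T : Finset (ℤ × ℤ)) : ∃ K : ℕ, 0 < K ∧ ∀ c ∈ T, |c.2| ≤ (K : ℤ) := by
  refine ⟨T.sup (fun c => c.2.natAbs) + 1, by omega, fun c hc => ?_⟩
  have h1 : c.2.natAbs ≤ T.sup (fun c => c.2.natAbs) := Finset.le_sup (f := fun c : ℤ × ℤ => c.2.natAbs) hc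
  rw [Int.abs_eq_natAbs]
  omega

/-- the exponent vectors bounded by `K` -/
noncomputable def cBox (K : ℕ) : Finset (Fin 3 × (Fin 3 → ℤ)) :=
  univ ×ˢ (Fintype.piFinset fun _ => Finset.Icc (-(K : ℤ)) K)

lemma mem_cBox {K : ℕ} (e : Fin 3) {c : Fin 3 → ℤ} (hc : ∀ i, |c i| ≤ (K : ℤ)) : (e, c) ∈ cBox K := by
  rw [cBox, mem_product, Fintype.mem_piFinset]
  exact ⟨mem_univ _, fun i => mem_Icc.2 (abs_le.1 (hc i))⟩

/-- the scaling of one block -/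
lemma scale_block {κ : Fin r → Fin 3} {V : Set (Fin r → ℂ)} {ss : Fin 3 ⊕ Fin r → ℂ} {ws : Fin r → ℂ}
    (hw : ws ∈ V) (hfib : ∀ s, ∀ w ∈ V, AA.lin κ s w ∈ Helper69.AA.fib ss (AA.lin κ ss ws) s) (i : Fin 3) :
    (fun j => 2 ^ (Pi.single i 1 : Fin 3 → ℕ) j * AA.lin κ ss ws j) ∈ Helper69.AA.fib ss (AA.lin κ ss ws)
      fun t => 2 ^ (Sum.elim (fun j => (Pi.single i 1 : Fin 3 → ℕ) j)
        (fun k => (Pi.single i 1 : Fin 3 → ℕ) (κ k)) t) * ss t := by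
  have h1 := hfib (fun t => 2 ^ (Sum.elim (fun j => (Pi.single i 1 : Fin 3 → ℕ) j)
    (fun k => (Pi.single i 1 : Fin 3 → ℕ) (κ k)) t) * ss t) ws hw
  have h2 : AA.lin κ (fun t => 2 ^ (Sum.elim (fun j => (Pi.single i 1 : Fin 3 → ℕ) j)
    (fun k => (Pi.single i 1 : Fin 3 → ℕ) (κ k)) t) * ss t) ws =
      fun j => 2 ^ (Pi.single i 1 : Fin 3 → ℕ) j * AA.lin κ ss ws j := by
    funext j
    rw [AA.lin, AA.lin, mul_add, mul_sum]
    congr 1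
    refine sum_congr rfl fun k hk => ?_
    rw [Sum.elim_inr, (mem_filter.1 hk).2]
    ring
  rw [h2] at h1
  exact h1

/-- the condition on Wieferich roots -/
theorem wief {κ : Fin r → Fin 3} {V : Set (Fin r → ℂ)} {ss : Fin 3 ⊕ Fin r → ℂ} {ws : Fin r → ℂ} (hw : ws ∈ V)
    (hF : FamilyNZ ss (AA.lin κ ss ws)) (hfib : ∀ s, ∀ w ∈ V, AA.lin κ s w ∈ Helper69.AA.fib ss (AA.lin κ ss ws) s)
    {H : (Fin 3 → ℤ) → (Fin 3 → ℤ) → MvPolynomial (Fin 2) (MvPolynomial (Fin 3 ⊕ Fin r) ℤ)}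
    (hH : FamRel ss (AA.lin κ ss ws) H) (K : ℕ) {P : MvPolynomial (Fin 3 ⊕ Fin r) ℤ} (hP : P ≠ 0)
    (vv : ℕ → AbsoluteValue ℂ ℝ) (hvv : ∀ p : ℕ, IsNonarchimedean (vv p))
    (hvp : ∀ p : ℕ, p.Prime → vv p (p : ℂ) < 1) :
    ∃ (p₀ : ℕ) (G : ℕ → Set (Fin 3 ⊕ Fin r → ℤ)),
      (∀ (p : ℕ) (u w : Fin 3 ⊕ Fin r → ℤ), (∀ i, (p : ℤ) ^ 2 ∣ u i - w i) → u ∈ G p → w ∈ G p) ∧
      (∀ p : ℕ, p.Prime → p₀ ≤ p → ((p : ℝ) ^ 2) ^ Fintype.card (Fin 3 ⊕ Fin r) / 2 ≤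
        (Set.ncard {u | (∀ i, 0 ≤ u i ∧ u i < (p : ℤ) ^ 2) ∧ u ∈ G p} : ℝ)) ∧
      ∀ (p : ℕ), ∀ u ∈ G p, ¬ (p : ℤ) ∣ eval u P ∧
        ∀ (e : Fin 3) (c : Fin 3 → ℤ), c ≠ 0 → ∑ i, c i = 0 → (∀ i, |c i| ≤ (K : ℤ)) →
          NonWief (vv p) p (map (eval fun t => u t - 744 * p * e₀ t) (H (Pi.single e (-1)) c)) := by
  classical
  have hz0 : ∀ i, AA.lin κ ss ws i ≠ 0 := fun i h => hF.tr i (h ▸ isAlgebraic_zero)
  set I := {q ∈ cBox K | q.2 ≠ 0 ∧ ∑ i, q.2 i = 0} with hI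
  have hind : ∀ q : I, Indep (Pi.single q.1.1 (-1)) q.1.2 := fun q =>
    indep_single (mem_filter.1 q.2).2.1 (mem_filter.1 q.2).2.2
  obtain ⟨p₀, G, h1, h2, h3⟩ := Helper81.Y13.wief_density (ι := I) (H := fun q => H (Pi.single q.1.1 (-1)) q.1.2)
    (fun q => by
      obtain ⟨m, hm, hm'⟩ := exists_mono (hH.irr _ _ (hind q)) (hH.deg₁ _ _ (hind q))
      exact ⟨m, hm', hm⟩)
    (fun q => by
      obtain ⟨i, hi⟩ : ∃ i, q.1.2 i ≠ 0 := Function.ne_iff.1 (mem_filter.1 q.2).2.1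
      refine Helper81.Y13.homog_of_scale' hz0 (scale_block hw hfib i) (hH.irr _ _ (hind q)).ne_zero
        (a := Pi.single q.1.1 (-1)) (b := q.1.2) ?_ (hH.rel _ _ (hind q)) ?_
      · rw [Finset.sum_eq_single i]
        · rw [Pi.single_eq_same, Nat.cast_one, one_mul]
          exact hi
        · intro j _ hj
          rw [Pi.single_eq_of_ne hj, Nat.cast_zero, zero_mul]
        · exact fun h => absurd (mem_univ i) h
      · refine hH.min _ _ (hind q) _ _ (hH.rel _ _ (hind q)) (Or.inl ?_)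
        have h4 := transc_pair hF (hind q) 1 0 (Or.inl one_ne_zero)
        rwa [zpow_one, zpow_zero, mul_one] at h4) hP (fun t => 744 * e₀ t) hvv hvp
  refine ⟨p₀, G, h1, h2, fun p u hu => ⟨(h3 p u hu).1, fun e c hc hsum hcK => ?_⟩⟩
  refine (h3 p u hu).2 (fun t => u t - 744 * p * e₀ t) (fun t => ?_) ⟨(e, c), mem_filter.2
    ⟨mem_cBox e hcK, hc, hsum⟩⟩
  have h4 : u t - 744 * p * e₀ t - (u t - p * (744 * e₀ t)) = 0 := by ring
  rw [h4]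
  exact dvd_zero _

/-- values of polynomials at congruent vectors -/
lemma dvd_eval_congr {σ : Type} (P : MvPolynomial σ ℤ) {m : ℤ} {u w : σ → ℤ} (h : ∀ i, m ∣ u i - w i) :
    m ∣ eval u P - eval w P := by
  have h1 : (Ideal.Quotient.mk (Ideal.span {m})).comp (eval u) = (Ideal.Quotient.mk (Ideal.span {m})).comp (eval w) := by
    refine MvPolynomial.ringHom_ext (fun a => by simp) fun i => ?_
    simp only [RingHom.comp_apply, eval_X]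
    exact Ideal.Quotient.eq.2 (Ideal.mem_span_singleton.2 (h i))
  have h2 := RingHom.congr_fun h1 P
  exact Ideal.mem_span_singleton.1 (Ideal.Quotient.eq.1 h2)

/-- **members of linear systems of curves in `Y(1)³`** -/
theorem main13 {κ : Fin r → Fin 3} (hsurj : Function.Surjective κ) {V : Set (Fin r → ℂ)} (hV : IsSubvariety V)
    (h1 : dim V = 1) (hs : OverAlg V) (hc : ∀ (k : Fin r) (c : ℂ), ∃ w ∈ V, w k ≠ c) {c : ℕ}
    (hcount : ∀ s : Fin 3 ⊕ Fin r → ℂ, CountC c (member κ V s)) :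
    ∃ (L p₀ : ℕ) (G : ℕ → Set (Fin 3 ⊕ Fin r → ℤ)),
      (∀ (p : ℕ) (u w : Fin 3 ⊕ Fin r → ℤ), (∀ i, (p : ℤ) ^ 2 ∣ u i - w i) → u ∈ G p → w ∈ G p) ∧
      (∀ p : ℕ, p.Prime → p₀ ≤ p → ((p : ℝ) ^ 2) ^ Fintype.card (Fin 3 ⊕ Fin r) / 2 ≤
        (Set.ncard {u | (∀ i, 0 ≤ u i ∧ u i < (p : ℤ) ^ 2) ∧ u ∈ G p} : ℝ)) ∧
      ∀ p : ℕ, p.Prime → p₀ ≤ p → ∃ B : ℕ, ∀ s ∈ G p, ∀ k : ℤ, (p : ℤ) ^ L ∣ k - 1 →
        Concl B (member κ V fun t => ((p : ℂ) * k)⁻¹ * s t) := by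
  classical
  obtain ⟨ss, ws, hw, hF, hfib, -⟩ := linear_familyNZ hV h1 hc hs hsurj
  obtain ⟨H, hH⟩ := exists_famRel hF
  obtain ⟨T, hT⟩ := family_local hF hH
  obtain ⟨K, hK, hKT⟩ := exists_bound T
  obtain ⟨P₁, hP₁, hloc⟩ := hT (K ^ 2)
  -- separated roots
  have hsep : ∀ q : Fin 3 × (Fin 3 → ℤ), ∃ (P : MvPolynomial (Fin 3 ⊕ Fin r) ℤ) (m : Fin 2 →₀ ℕ), P ≠ 0 ∧
      (q.2 ≠ 0 → ∑ i, q.2 i = 0 → m 0 = 0 ∧
        ∀ (s : Fin 3 ⊕ Fin r → ℤ) (p : ℕ), p.Prime → ¬ (p : ℤ) ∣ eval s P → ∀ v : AbsoluteValue ℂ ℝ,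
          IsNonarchimedean v → v (p : ℂ) < 1 →
          v (((map (eval s) (H (Pi.single q.1 (-1)) q.2)).coeff m : ℤ) : ℂ) = 1 ∧
          SepRoots v (map (eval s) (H (Pi.single q.1 (-1)) q.2))) := by
    rintro ⟨e, c⟩
    by_cases h : c ≠ 0 ∧ ∑ i, c i = 0
    · have hind := indep_single (e := e) h.1 h.2
      obtain ⟨m, hm, hm'⟩ := exists_mono (hH.irr _ _ hind) (hH.deg₁ _ _ hind)
      obtain ⟨P, hP, h2⟩ := Helper22.AA.exists_sepRoots _ m hm hm'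
      exact ⟨P, m, hP, fun _ _ => ⟨hm, fun s p hp hps v hv hvp => h2 s p hp hps v hv hvp⟩⟩
    · exact ⟨1, 0, one_ne_zero, fun ha hb => absurd ⟨ha, hb⟩ h⟩
  choose P₂ mm hP₂ hsep using hsep
  -- no constant coordinates
  obtain ⟨P₃, hP₃, hnc⟩ := exists_nonConstC hsurj hs hc
  set P := P₁ * (∏ q ∈ cBox (K ^ 2), P₂ q) * P₃ with hP
  have hP0 : P ≠ 0 := mul_ne_zero (mul_ne_zero hP₁ (prod_ne_zero_iff.2 fun q _ => hP₂ q)) hP₃
  have hplace : ∀ p : ℕ, ∃ v : AbsoluteValue ℂ ℝ, IsNonarchimedean v ∧ (p.Prime → v (p : ℂ) < 1) := by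
    intro p
    by_cases hp : p.Prime
    · obtain ⟨v, hv, hvp⟩ := exists_place hp
      refine ⟨v, hv, fun _ => ?_⟩
      rw [hvp]
      exact inv_lt_one_of_one_lt₀ (by exact_mod_cast hp.one_lt)
    · obtain ⟨v, hv, -⟩ := exists_place Nat.prime_two
      exact ⟨v, hv, fun h => absurd h hp⟩
  choose vv hvv hvvp using hplace
  obtain ⟨p₀, G, hper, hcnt, hG⟩ := wief hw hF hfib hH (K ^ 2) hP0 vv hvv hvvp
  -- the precision
  obtain ⟨D, hD⟩ : ∃ D : ℕ, ∀ q ∈ cBox (K ^ 2), (H (Pi.single q.1 (-1)) q.2).totalDegree ≤ D :=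
    ⟨(cBox (K ^ 2)).sup fun q => (H (Pi.single q.1 (-1)) q.2).totalDegree, fun q hq =>
      Finset.le_sup (f := fun q : Fin 3 × (Fin 3 → ℤ) => (H (Pi.single q.1 (-1)) q.2).totalDegree) hq⟩
  refine ⟨D + 2, p₀, G, hper, hcnt, fun p hp _ => ?_⟩
  have hv := hvv p
  have hvp := hvvp p hp
  -- the local data for a good class
  have hgood : ∀ s₀ : Fin 3 ⊕ Fin r → ℤ, (fun t => s₀ t + 744 * p * e₀ t) ∈ G p →
      ¬ (p : ℤ) ∣ eval s₀ P₃ ∧ Local13 (vv p) p (near (vv p) p (D + 2) ss (AA.lin κ ss ws) s₀) := by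
    intro s₀ hs₀
    obtain ⟨h2, h3⟩ := hG p _ hs₀
    have hcong : ∀ Q : MvPolynomial (Fin 3 ⊕ Fin r) ℤ, (p : ℤ) ∣ eval s₀ Q →
        (p : ℤ) ∣ eval (fun t => s₀ t + 744 * p * e₀ t) Q := by
      intro Q hQ
      have h4 := dvd_eval_congr Q (m := (p : ℤ)) (u := fun t => s₀ t + 744 * p * e₀ t) (w := s₀) (fun t => by
        rw [add_sub_cancel_left]
        exact ⟨744 * e₀ t, by ring⟩)
      exact (dvd_iff_dvd_of_dvd_sub h4).2 hQ
    have hs₀' : (fun t => (fun t => s₀ t + 744 * p * e₀ t) t - 744 * p * e₀ t) = s₀ := by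
      funext t
      ring
    rw [hs₀'] at h3
    rw [hP, map_mul, map_mul, map_prod] at h2
    have g1 : ¬ (p : ℤ) ∣ eval s₀ P₁ := fun h => h2 (((hcong _ h).mul_right _).mul_right _)
    have g3 : ¬ (p : ℤ) ∣ eval s₀ P₃ := fun h => h2 ((hcong _ h).mul_left _)
    have g2 : ∀ q ∈ cBox (K ^ 2), ¬ (p : ℤ) ∣ eval s₀ (P₂ q) := fun q hq h =>
      h2 ((((hcong _ h).trans (dvd_prod_of_mem
        (fun q => eval (fun t => s₀ t + 744 * p * e₀ t) (P₂ q)) hq)).mul_left _).mul_right _)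
    refine ⟨g3, local13_of hv hp hvp hK (by omega) hKT (hloc s₀ p hp g1 _ hv hvp (D + 2) (by omega)) ?_⟩
    intro e c hc0 hsum hcK
    have hmem := mem_cBox e hcK
    obtain ⟨h4, h5⟩ := hsep (e, c) hc0 hsum
    obtain ⟨h6, h7⟩ := h5 s₀ p hp (g2 _ hmem) _ hv hvp
    refine ⟨fun m hm => ?_, ⟨_, h4, h6⟩, h7, h3 e c hc0 hsum hcK⟩
    have h8 : m ∈ (H (Pi.single e (-1)) c).support := support_map_subset _ _ hm
    have h9 := le_totalDegree h8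
    have h10 : (H (Pi.single e (-1)) c).totalDegree ≤ D := hD (e, c) hmem
    have h11 : m 0 + m 1 ≤ D := by
      refine le_trans (le_of_eq ?_) (h9.trans h10)
      rw [Finsupp.sum_fintype _ _ fun _ => rfl, Fin.sum_univ_two]
    omega
  have hper' : ∀ u w : Fin 3 ⊕ Fin r → ℤ, (∀ t, (p : ℤ) ^ (D + 2) ∣ u t - w t) →
      (fun t => u t + 744 * p * e₀ t) ∈ G p → (fun t => w t + 744 * p * e₀ t) ∈ G p := by
    intro u w huw hu
    refine hper p _ _ (fun i => ?_) hu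
    have h2 : (fun t => u t + 744 * p * e₀ t) i - (fun t => w t + 744 * p * e₀ t) i = u i - w i := by ring
    have h3 : (p : ℤ) ^ 2 ∣ (p : ℤ) ^ (D + 2) := ⟨(p : ℤ) ^ D, by ring⟩
    rw [h2]
    exact h3.trans (huw i)
  obtain ⟨B, hB⟩ := members13 (L := D + 2) hv hp hvp hV h1 hfib hnc hcount (by omega)
    (G := {u | (fun t => u t + 744 * p * e₀ t) ∈ G p}) hgood hper'
  refine ⟨B, fun s hs k hk => hB s ?_ k hk⟩
  change (fun t => s t - 744 * p * e₀ t + 744 * p * e₀ t) ∈ G p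
  have h2 : (fun t => s t - 744 * p * e₀ t + 744 * p * e₀ t) = s := by
    funext t
    ring
  rw [h2]
  exact hs

end Pool.Agent.Helper36.Y13
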