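import Pool.Agent.Helper36.Y13.Asm
import Pool.Agent.Helper11.AB.Rel

/-! # Members of linear systems of curves in `Y(1)³` -/

open MvPolynomial Finset

namespace Pool.Agent.Helper36.Y13
open Pool.Agent.Helper11.ZP Pool.Agent.Helper11.ZU Pool.Agent.Helper20.ZD Pool.Agent.Helper36.DL
  Pool.Agent.Helper36.AA Pool.Agent.Helper69.AA Pool.Agent.Helper11.AB

variable {r n : ℕ} {v : AbsoluteValue ℂ ℝ} {p : ℕ}

/-- affine images of closures -/
lemma pClosure_affine {L L' : Fin n → MvPolynomial (Fin r) ℂ} {V : Set (Fin r → ℂ)} {c : ℂ} (hc : c ≠ 0)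
    (b : Fin n → ℂ) (h : ∀ i w, eval w (L' i) = c * eval w (L i) + b i) :
    pClosure L' V = affine (fun _ => c) b (pClosure L V) := by
  have hc' : ∀ _ : Fin n, c ≠ 0 := fun _ => hc
  have hpt : ∀ w : Fin r → ℂ, (fun i => (eval w (L' i) - b i) / c) = fun i => eval w (L i) := fun w => by
    funext i
    rw [h, add_sub_cancel_right, mul_comm, mul_div_assoc, div_self hc, mul_one]
  ext x
  change x ∈ pClosure L' V ↔ (fun i => (x i - b i) / c) ∈ pClosure L V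
  rw [pClosure, pClosure, mem_zeroLocus_iff, mem_zeroLocus_iff]
  constructor
  · intro hx g hg
    have h1 := hx (affEquiv (fun _ => c) b hc' g) (by
      rw [mem_van]
      rintro _ ⟨w, hw, rfl⟩
      rw [eval_aff, hpt]
      exact mem_van.1 hg _ ⟨w, hw, rfl⟩)
    rw [aeval_eq_eval] at h1 ⊢
    rwa [eval_aff] at h1
  · intro hx f hf
    have h0 := (affEquiv (fun _ => c) b hc').apply_symm_apply f
    have h1 := hx ((affEquiv (fun _ => c) b hc').symm f) (by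
      rw [mem_van]
      rintro _ ⟨w, hw, rfl⟩
      have h2 := mem_van.1 hf _ ⟨w, hw, rfl⟩
      rw [← h0, eval_aff, hpt] at h2
      exact h2)
    rw [aeval_eq_eval] at h1 ⊢
    rw [← eval_aff (fun _ => c) b hc', h0] at h1
    exact h1

/-- the vector with the coordinates `1` at `inl i` -/
def e₀ (t : Fin n ⊕ Fin r) : ℤ := Sum.elim (fun _ => 1) (fun _ => 0) t

lemma member_affine (κ : Fin r → Fin n) (V : Set (Fin r → ℂ)) (s : Fin n ⊕ Fin r → ℂ) {c : ℂ} (hc : c ≠ 0) (b : ℂ) :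
    member κ V (fun t => c * s t + b * e₀ t) = affine (fun _ => c) (fun _ => b) (member κ V s) := by
  refine pClosure_affine hc _ fun i w => ?_
  rw [eval_linPoly, eval_linPoly, mul_add, mul_sum]
  simp only [e₀, Sum.elim_inl, Sum.elim_inr, Int.cast_one, Int.cast_zero, mul_one, mul_zero, add_zero]
  rw [add_right_comm]
  congr 1
  congr 1
  exact sum_congr rfl fun k _ => by ring

/-- **members near a set of good classes** -/
theorem members13 (hv : IsNonarchimedean v) (hp : p.Prime) (hvp : v (p : ℂ) < 1)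
    {κ : Fin r → Fin 3} {V : Set (Fin r → ℂ)} (hV : IsSubvariety V) (h1 : dim V = 1)
    {ss : Fin 3 ⊕ Fin r → ℂ} {zs : Fin 3 → ℂ} (hfib : ∀ s, ∀ w ∈ V, AA.lin κ s w ∈ fib ss zs s)
    {P' : MvPolynomial (Fin 3 ⊕ Fin r) ℤ} (hnc : ∀ s : Fin 3 ⊕ Fin r → ℂ, aeval s P' ≠ 0 →
      ∀ i, ∃ w ∈ V, ∃ w' ∈ V, eval w (linPoly κ s i) ≠ eval w' (linPoly κ s i))
    {c : ℕ} (hcount : ∀ s : Fin 3 ⊕ Fin r → ℂ, CountC c (member κ V s))
    {L : ℕ} (hL : 0 < L) {G : Set (Fin 3 ⊕ Fin r → ℤ)}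
    (hG : ∀ s₀ ∈ G, ¬ (p : ℤ) ∣ eval s₀ P' ∧ Local13 v p (near v p L ss zs s₀))
    (hper : ∀ u w : Fin 3 ⊕ Fin r → ℤ, (∀ t, (p : ℤ) ^ L ∣ u t - w t) → u ∈ G → w ∈ G) :
    ∃ B : ℕ, ∀ s : Fin 3 ⊕ Fin r → ℤ, (fun t => s t - 744 * p * e₀ t) ∈ G → ∀ k : ℤ, (p : ℤ) ^ L ∣ k - 1 →
      Concl B (member κ V fun t => ((p : ℂ) * k)⁻¹ * s t) := by
  classical
  have hp0 : 0 < v (p : ℂ) := (AbsoluteValue.pos_iff v).2 (by exact_mod_cast hp.ne_zero)
  have hpC : (p : ℂ) ≠ 0 := by exact_mod_cast hp.ne_zero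
  have hdiv : ∀ a : ℤ, (p : ℤ) ^ L ∣ a → v (a : ℂ) ≤ v (p : ℂ) ^ L := by
    rintro a ⟨b, rfl⟩
    push_cast
    rw [map_mul, map_pow]
    exact mul_le_of_le_one_right (pow_nonneg hp0.le L) (hv.apply_intCast_le_one)
  have hsq : v (p : ℂ) ^ L ≤ v (p : ℂ) := pow_le_of_le_one hp0.le hvp.le hL.ne'
  have key : ∀ c : Fin 3 ⊕ Fin r → ℕ, ∃ M : ℕ, (fun t => (c t : ℤ)) ∈ G → ∀ k : ℂ, NearOne v p k →
      ∀ z ∈ near v p L ss zs (fun t => (c t : ℤ)), LevelData M fun i => ((p : ℂ) * k)⁻¹ * z i + 744 := by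
    intro c
    by_cases h : (fun t => (c t : ℤ)) ∈ G
    · obtain ⟨M, hM⟩ := exists_levelData hv hp hvp (hG _ h).2
      exact ⟨M, fun _ => hM⟩
    · exact ⟨0, fun h' => absurd h' h⟩
  choose M hM using key
  set M' := (Fintype.piFinset fun _ : Fin 3 ⊕ Fin r => range (p ^ L)).sup M with hM'
  refine ⟨bound 3 c M', fun s hs k hk => ?_⟩
  have hp2 : (0 : ℤ) < (p : ℤ) ^ L := by
    have := hp.pos
    positivity
  -- the class of `s`
  set c : Fin 3 ⊕ Fin r → ℕ := fun t => ((s t - 744 * p * e₀ t) % (p : ℤ) ^ L).toNat with hc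
  have hcZ : ∀ t, ((c t : ℕ) : ℤ) = (s t - 744 * p * e₀ t) % (p : ℤ) ^ L := fun t => by
    rw [hc]
    exact Int.toNat_of_nonneg (Int.emod_nonneg _ hp2.ne')
  have hcG : (fun t => (c t : ℤ)) ∈ G := by
    refine hper _ _ (fun t => ?_) hs
    rw [hcZ]
    exact Int.dvd_self_sub_emod
  have hcM : M c ≤ M' := by
    refine Finset.le_sup (f := M) (Fintype.mem_piFinset.2 fun t => mem_range.2 ?_)
    have h2 := Int.emod_lt_of_pos (s t - 744 * p * e₀ t) hp2
    rw [← hcZ] at h2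
    exact_mod_cast h2
  have hkv : NearOne v p (k : ℂ) := ⟨Zp.int k, by
    have := hdiv _ hk
    push_cast at this
    exact this.trans hsq⟩
  have hk0 : (k : ℂ) ≠ 0 := fun h => by
    have := hkv.v_eq hv hvp
    rw [h, map_zero] at this
    exact zero_ne_one this
  -- the vector `s̃`
  set s' : Fin 3 ⊕ Fin r → ℂ := fun t => (s t : ℂ) - 744 * p * k * e₀ t with hs'
  have hnear : ∀ t, v (s' t - ((c t : ℤ) : ℂ)) ≤ v (p : ℂ) ^ L := by
    intro t
    have h2 : s' t - ((c t : ℤ) : ℂ) = ((((s t - 744 * p * e₀ t) - (s t - 744 * p * e₀ t) % (p : ℤ) ^ L) -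
        744 * p * e₀ t * (k - 1) : ℤ) : ℂ) := by
      rw [hcZ, hs']
      push_cast
      ring
    rw [h2]
    exact hdiv _ (dvd_sub Int.dvd_self_sub_emod (hk.mul_left _))
  obtain ⟨h5, -⟩ := hG _ hcG
  have h6 := (unit_near hv hp hvp (fun t => (hnear t).trans hsq) P').2 h5
  have h7 : aeval s' P' ≠ 0 := fun h0 => by
    rw [h0, map_zero] at h6
    exact zero_ne_one h6
  have hnc' := hnc s' h7
  have hl0 : ((p : ℂ) * k)⁻¹ ≠ 0 := inv_ne_zero (mul_ne_zero hpC hk0)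
  have hmem : member κ V (fun t => ((p : ℂ) * k)⁻¹ * s t) =
      affine (fun _ => ((p : ℂ) * k)⁻¹) (fun _ => 744) (member κ V s') := by
    rw [← member_affine κ V s' hl0 744]
    congr 1
    funext t
    rw [hs']
    field_simp
    ring
  have hsub : IsSubvariety (member κ V s') := isSubvariety_pClosure hV
  have hdim : dim (member κ V s') = 1 := dim_pClosure hV h1 (by norm_num) hnc'
  have hnon := nonConst_pClosure hnc'
  have hsub' : member κ V s' ⊆ near v p L ss zs (fun t => (c t : ℤ)) :=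
    (closure_subset_fib fun w hw => hfib s' w hw).trans fun z hz => ⟨s', hnear, hz⟩
  rw [hmem]
  have hl1 : ∀ _ : Fin 3, ((p : ℂ) * k)⁻¹ ≠ 0 := fun _ => hl0
  refine concl_of_level (isSubvariety_affine hl1 _ hsub) (by rw [dim_affine hl1, hdim]) (fun i b => ?_)
    (hmem ▸ hcount _) fun x hx => ?_
  · obtain ⟨z, hz, hzc⟩ := hnon i ((b - 744) / ((p : ℂ) * k)⁻¹)
    refine ⟨fun j => ((p : ℂ) * k)⁻¹ * z j + 744, ?_, fun h => hzc ?_⟩
    · change (fun j => (((p : ℂ) * k)⁻¹ * z j + 744 - 744) / ((p : ℂ) * k)⁻¹) ∈ member κ V s'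
      rw [aff_inv hl1]
      exact hz
    · rw [eq_div_iff hl0, ← h]
      ring
  · have h8 := (hM c hcG k hkv _ (hsub' hx)).mono hcM
    have h9 : (fun i => ((p : ℂ) * k)⁻¹ * ((x i - 744) / ((p : ℂ) * k)⁻¹) + 744) = x := by
      funext i
      rw [mul_div_cancel₀ _ hl0, sub_add_cancel]
    rw [h9] at h8
    exact h8

end Pool.Agent.Helper36.Y13
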